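import Pool.Agent.Y315.OP.Stm

set_option autoImplicit false

open MeasureTheory Filter Topology
open scoped ContDiff ENNReal

namespace Pool.Agent.Y308.OP
open Pool.Agent.Y315.OP

variable {d : ℕ}

lemma tf_fderiv {η : E d → ℝ} (hη : TF η) (v : E d) : TF (fun x => fderiv ℝ η x v) := by
  refine ⟨?_, hη.2.fderiv_apply ℝ v⟩
  exact (hη.1.fderiv_right (m := ∞) (by simp)).clm_apply contDiff_const

lemma tf_mul {η ψ : E d → ℝ} (hη : TF η) (hψ : TF ψ) : TF (fun x => η x * ψ x) :=
  ⟨hη.1.mul hψ.1, hη.2.mul_right⟩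

lemma tf_bdd {η : E d → ℝ} (hη : TF η) : ∃ C, ∀ x, ‖η x‖ ≤ C :=
  hη.1.continuous.bounded_above_of_compact_support hη.2

lemma tf_memLp {η : E d → ℝ} (hη : TF η) : MemLp η 2 :=
  hη.1.continuous.memLp_of_hasCompactSupport hη.2

lemma grad_cont {η : E d → ℝ} (hη : TF η) : Continuous (gradient η) := by
  unfold gradient
  exact (InnerProductSpace.toDual ℝ (E d)).symm.continuous.comp (hη.1.continuous_fderiv (by simp))

lemma inner_grad {η : E d → ℝ} (x v : E d) : inner ℝ (gradient η x) v = fderiv ℝ η x v := by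
  unfold gradient
  exact InnerProductSpace.toDual_symm_apply

lemma grad_bdd {η : E d → ℝ} (hη : TF η) : ∃ C, ∀ x, ‖gradient η x‖ ≤ C := by
  obtain ⟨C, hC⟩ := (hη.1.continuous_fderiv (by simp)).bounded_above_of_compact_support
    (hη.2.fderiv ℝ)
  refine ⟨C, fun x => ?_⟩
  unfold gradient
  rw [LinearIsometryEquiv.norm_map]
  exact hC x

lemma int_mul {u v : E d → ℝ} (hu : MemLp u 2) (hv : MemLp v 2) :
    Integrable (fun x => u x * v x) := hu.integrable_mul hv

lemma int_inner {g γ : E d → E d} (hg : MemLp g 2) (hγ : MemLp γ 2) :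
    Integrable (fun x => inner ℝ (g x) (γ x)) := by
  refine Integrable.mono' (hg.norm.integrable_mul hγ.norm) (hg.1.inner hγ.1) ?_
  exact Eventually.of_forall (fun x => norm_inner_le_norm _ _)

lemma inH_mul {V : E d → ℝ≥0∞} {u : E d → ℝ} {g : E d → E d} (hu : InH V u g)
    {η : E d → ℝ} (hη : TF η) :
    InH V (fun x => η x * u x) (fun x => η x • g x + u x • gradient η x) := by
  obtain ⟨C, hC⟩ := tf_bdd hη
  obtain ⟨C', hC'⟩ := grad_bdd hη
  have hC0 : 0 ≤ C := (norm_nonneg _).trans (hC 0)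
  refine ⟨?_, ?_, ?_, ?_⟩
  · refine hu.mu.of_le_mul (c := C) (hη.1.continuous.aestronglyMeasurable.mul hu.mu.1) ?_
    refine Eventually.of_forall (fun x => ?_)
    rw [norm_mul]
    exact mul_le_mul_of_nonneg_right (hC x) (norm_nonneg _)
  · refine MemLp.add ?_ ?_
    · refine hu.mg.of_le_mul (c := C) (hη.1.continuous.aestronglyMeasurable.smul hu.mg.1) ?_
      refine Eventually.of_forall (fun x => ?_)
      rw [norm_smul]
      exact mul_le_mul_of_nonneg_right (hC x) (norm_nonneg _)
    · refine hu.mu.of_le_mul (c := C') (hu.mu.1.smul (grad_cont hη).aestronglyMeasurable) ?_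
      refine Eventually.of_forall (fun x => ?_)
      rw [norm_smul, mul_comm]
      exact mul_le_mul_of_nonneg_right (hC' x) (norm_nonneg _)
  · intro ψ hψ v
    have h1 := hu.wg (fun x => η x * ψ x) (tf_mul hη hψ) v
    have hd : ∀ x, fderiv ℝ (fun x => η x * ψ x) x v =
        η x * fderiv ℝ ψ x v + ψ x * fderiv ℝ η x v := by
      intro x
      have h2 := ((hη.1.differentiable (by simp)) x).hasFDerivAt.mul
        ((hψ.1.differentiable (by simp)) x).hasFDerivAt
      have h3 := h2.fderiv
      have h4 : fderiv ℝ (fun x => η x * ψ x) x = η x • fderiv ℝ ψ x + ψ x • fderiv ℝ η x := h3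
      rw [h4]
      simp
    simp_rw [hd] at h1
    have i1 : Integrable (fun x => η x * u x * fderiv ℝ ψ x v) := by
      have := int_mul hu.mu (tf_memLp (tf_mul hη (tf_fderiv hψ v)))
      refine this.congr (Eventually.of_forall (fun x => ?_))
      simp only
      ring
    have i2 : Integrable (fun x => u x * (ψ x * fderiv ℝ η x v)) :=
      int_mul hu.mu (tf_memLp (tf_mul hψ (tf_fderiv hη v)))
    have i3 : Integrable (fun x => inner ℝ (g x) v * (η x * ψ x)) :=
      int_mul (hu.mg.inner_const v) (tf_memLp (tf_mul hη hψ))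
    have e1 : ∫ x, u x * (η x * fderiv ℝ ψ x v + ψ x * fderiv ℝ η x v) =
        (∫ x, η x * u x * fderiv ℝ ψ x v) + ∫ x, u x * (ψ x * fderiv ℝ η x v) := by
      rw [← integral_add i1 i2]
      refine integral_congr_ae (Eventually.of_forall (fun x => ?_))
      simp only
      ring
    have e2 : ∫ x, inner ℝ (η x • g x + u x • gradient η x) v * ψ x =
        (∫ x, inner ℝ (g x) v * (η x * ψ x)) + ∫ x, u x * (ψ x * fderiv ℝ η x v) := by
      rw [← integral_add i3 i2]
      refine integral_congr_ae (Eventually.of_forall (fun x => ?_))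
      simp only
      rw [inner_add_left, inner_smul_left, inner_smul_left, inner_grad]
      simp only [conj_trivial]
      ring
    rw [e1] at h1
    rw [e2]
    have e3 : ∫ x, (fun x => η x * u x) x * fderiv ℝ ψ x v = ∫ x, η x * u x * fderiv ℝ ψ x v := rfl
    rw [e3]
    linarith
  · have h1 : ∀ x, V x * ‖η x * u x‖ₑ ^ 2 ≤ ENNReal.ofReal (C ^ 2) * (V x * ‖u x‖ₑ ^ 2) := by
      intro x
      have h2 : ‖η x * u x‖ₑ ^ 2 ≤ ENNReal.ofReal (C ^ 2) * ‖u x‖ₑ ^ 2 := by
        rw [enorm_mul, mul_pow]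
        refine mul_le_mul_left ?_ _
        rw [ENNReal.ofReal_pow hC0]
        refine pow_le_pow_left' ?_ 2
        rw [← ofReal_norm]
        exact ENNReal.ofReal_le_ofReal (hC x)
      calc V x * ‖η x * u x‖ₑ ^ 2 ≤ V x * (ENNReal.ofReal (C ^ 2) * ‖u x‖ₑ ^ 2) :=
            mul_le_mul_right h2 _
        _ = ENNReal.ofReal (C ^ 2) * (V x * ‖u x‖ₑ ^ 2) := by ring
    refine (lintegral_mono h1).trans_lt ?_
    rw [lintegral_const_mul' _ _ ENNReal.ofReal_ne_top]
    exact ENNReal.mul_lt_top ENNReal.ofReal_lt_top hu.fin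

lemma int_V {V : E d → ℝ≥0∞} (hV : Measurable V) {u : E d → ℝ} {g : E d → E d}
    (hu : InH V u g) {η : E d → ℝ} (hη : TF η) :
    Integrable (fun x => (V x).toReal * (u x ^ 2 * η x)) := by
  obtain ⟨C, hC⟩ := tf_bdd hη
  have h1 : Integrable (fun x => (V x).toReal * u x ^ 2) := by
    refine ⟨hV.ennreal_toReal.aestronglyMeasurable.mul (hu.mu.1.pow 2), ?_⟩
    rw [hasFiniteIntegral_iff_enorm]
    refine (lintegral_mono (fun x => ?_)).trans_lt hu.fin
    rw [enorm_mul, enorm_pow]
    refine mul_le_mul_left ?_ _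
    rw [Real.enorm_of_nonneg ENNReal.toReal_nonneg]
    exact ENNReal.ofReal_toReal_le
  have h2 : Integrable (fun x => η x * ((V x).toReal * u x ^ 2)) :=
    h1.bdd_mul hη.1.continuous.aestronglyMeasurable (Eventually.of_forall hC)
  refine h2.congr (Eventually.of_forall (fun x => ?_))
  simp only
  ring

lemma one (h : S_SQ) (hd : 1 ≤ d) {V : E d → ℝ≥0∞} {L : ℝ} {u : E d → ℝ}
    {g : E d → E d} (hu : InH V u g) (hE : Eig V L u g) {η : E d → ℝ} (hη : TF η)
    (hη0 : ∀ x, 0 ≤ η x) :
    2 * (∫ x, (V x).toReal * (u x ^ 2 * η x)) - 2 * L * (∫ x, u x ^ 2 * η x) ≤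
      ∫ x, u x ^ 2 * lap η x := by
  obtain ⟨C, hC⟩ := tf_bdd hη
  have h1 := hE _ _ (inH_mul hu hη)
  -- the first term
  have ig : MemLp (fun x => η x • g x) 2 := by
    refine hu.mg.of_le_mul (c := C) (hη.1.continuous.aestronglyMeasurable.smul hu.mg.1) ?_
    refine Eventually.of_forall (fun x => ?_)
    rw [norm_smul]
    exact mul_le_mul_of_nonneg_right (hC x) (norm_nonneg _)
  have i1 : Integrable (fun x => inner ℝ (g x) (η x • g x)) := int_inner hu.mg ig
  have ie : ∀ i : Fin d, Integrable (fun x => u x * inner ℝ (g x) (EuclideanSpace.single i (1 : ℝ)) *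
      fderiv ℝ η x (EuclideanSpace.single i 1)) := by
    intro i
    obtain ⟨C1, hC1⟩ := tf_bdd (tf_fderiv hη (EuclideanSpace.single i 1))
    have h2 := int_mul hu.mu (hu.mg.inner_const (EuclideanSpace.single i (1 : ℝ)))
    have h3 := h2.bdd_mul (tf_fderiv hη (EuclideanSpace.single i 1)).1.continuous.aestronglyMeasurable
      (Eventually.of_forall hC1)
    refine h3.congr (Eventually.of_forall (fun x => ?_))
    simp only
    ring
  have esum : ∀ x, u x * inner ℝ (g x) (gradient η x) =
      ∑ i : Fin d, u x * inner ℝ (g x) (EuclideanSpace.single i (1 : ℝ)) *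
        fderiv ℝ η x (EuclideanSpace.single i 1) := by
    intro x
    have h2 : inner ℝ (g x) (gradient η x) =
        ∑ i : Fin d, inner ℝ (g x) (EuclideanSpace.single i (1 : ℝ)) *
          fderiv ℝ η x (EuclideanSpace.single i 1) := by
      have h3 := (EuclideanSpace.basisFun (Fin d) ℝ).sum_inner_mul_inner (g x) (gradient η x)
      rw [← h3]
      refine Finset.sum_congr rfl (fun i _ => ?_)
      rw [EuclideanSpace.basisFun_apply, ← inner_grad, real_inner_comm (gradient η x)]
    rw [h2, Finset.mul_sum]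
    refine Finset.sum_congr rfl (fun i _ => ?_)
    ring
  have i2 : Integrable (fun x => u x * inner ℝ (g x) (gradient η x)) := by
    simp_rw [esum]
    exact integrable_finsetSum _ (fun i _ => ie i)
  have e1 : ∫ x, inner ℝ (g x) (η x • g x + u x • gradient η x) =
      (∫ x, inner ℝ (g x) (η x • g x)) + ∫ x, u x * inner ℝ (g x) (gradient η x) := by
    rw [← integral_add i1 i2]
    refine integral_congr_ae (Eventually.of_forall (fun x => ?_))
    simp only
    rw [inner_add_right, real_inner_smul_right (g x) (gradient η x)]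
  -- the Laplacian
  have h2 : ∀ i : Fin d, ∫ x, u x ^ 2 *
      fderiv ℝ (fun y => fderiv ℝ η y (EuclideanSpace.single i 1)) x (EuclideanSpace.single i 1) =
      - 2 * ∫ x, u x * inner ℝ (g x) (EuclideanSpace.single i (1 : ℝ)) *
        fderiv ℝ η x (EuclideanSpace.single i 1) := by
    intro i
    rw [h d u g hd hu.mu hu.mg hu.wg _ (tf_fderiv hη (EuclideanSpace.single i 1))
      (EuclideanSpace.single i 1), neg_mul, ← integral_const_mul]
    congr 1
    refine integral_congr_ae (Eventually.of_forall (fun x => ?_))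
    simp only
    ring
  have il : ∀ i : Fin d, Integrable (fun x => u x ^ 2 *
      fderiv ℝ (fun y => fderiv ℝ η y (EuclideanSpace.single i 1)) x
        (EuclideanSpace.single i 1)) := by
    intro i
    have ht := tf_fderiv (tf_fderiv hη (EuclideanSpace.single i 1)) (EuclideanSpace.single i 1)
    obtain ⟨C1, hC1⟩ := tf_bdd ht
    have h3 := hu.mu.integrable_sq.bdd_mul ht.1.continuous.aestronglyMeasurable
      (Eventually.of_forall hC1)
    refine h3.congr (Eventually.of_forall (fun x => ?_))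
    simp only
    ring
  have e2 : ∫ x, u x ^ 2 * lap η x = - 2 * ∫ x, u x * inner ℝ (g x) (gradient η x) := by
    simp_rw [esum]
    rw [integral_finsetSum _ (fun i _ => ie i), Finset.mul_sum]
    simp_rw [← h2]
    rw [← integral_finsetSum _ (fun i _ => il i)]
    refine integral_congr_ae (Eventually.of_forall (fun x => ?_))
    simp only [lap]
    rw [Finset.mul_sum]
  have e3 : ∫ x, (V x).toReal * (u x * (η x * u x)) = ∫ x, (V x).toReal * (u x ^ 2 * η x) := by
    refine integral_congr_ae (Eventually.of_forall (fun x => ?_))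
    simp only
    ring
  have e4 : ∫ x, u x * (η x * u x) = ∫ x, u x ^ 2 * η x := by
    refine integral_congr_ae (Eventually.of_forall (fun x => ?_))
    simp only
    ring
  have e5 : 0 ≤ ∫ x, inner ℝ (g x) (η x • g x) := by
    refine integral_nonneg (fun x => ?_)
    simp only [Pi.zero_apply]
    rw [real_inner_smul_right, real_inner_self_eq_norm_sq]
    exact mul_nonneg (hη0 x) (sq_nonneg _)
  rw [e1, e3, e4] at h1
  rw [e2]
  linarith

/-- the optimality condition, real version -/
lemma opt_real {p κ : ℝ} (hp : 0 < p) (hκ : 0 < κ) {v : ℝ≥0∞} {ρ : ℝ} (hρ : 0 ≤ ρ) (hv : v ≠ ⊤)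
    (h : v * ENNReal.ofReal ρ = ENNReal.ofReal κ * v ^ (-p)) :
    v.toReal * ρ = κ ^ (1 / (p + 1)) * ρ ^ (p / (p + 1)) := by
  have hv0 : v ≠ 0 := by
    intro h0
    rw [h0, zero_mul, ENNReal.zero_rpow_of_neg (by linarith), ENNReal.mul_top] at h
    · exact ENNReal.zero_ne_top h
    · simpa using hκ
  have hvp : 0 < v.toReal := ENNReal.toReal_pos hv0 hv
  set t := v.toReal with ht
  have h1 : t * ρ = κ * t ^ (-p) := by
    have h2 := congrArg ENNReal.toReal h
    rw [ENNReal.toReal_mul, ENNReal.toReal_mul, ENNReal.toReal_ofReal hρ,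
      ENNReal.toReal_ofReal hκ.le, ← ENNReal.toReal_rpow] at h2
    exact h2
  have h3 : κ = t ^ (p + 1) * ρ := by
    have h4 : t ^ p * t ^ (-p) = 1 := by
      rw [← Real.rpow_add hvp]; simp
    have h5 : t ^ p * (t * ρ) = κ := by
      rw [h1]
      calc t ^ p * (κ * t ^ (-p)) = κ * (t ^ p * t ^ (-p)) := by ring
        _ = κ := by rw [h4, mul_one]
    rw [← h5, Real.rpow_add hvp, Real.rpow_one]
    ring
  have hp1 : p + 1 ≠ 0 := by linarith
  rw [h3, Real.mul_rpow (by positivity) hρ, ← Real.rpow_mul hvp.le, mul_one_div_cancel hp1,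
    Real.rpow_one, mul_assoc, ← Real.rpow_add' hρ]
  · rw [← add_div, add_comm 1 p, div_self hp1, Real.rpow_one]
  · rw [← add_div, add_comm 1 p, div_self hp1]
    exact one_ne_zero

/-- **OP-DIST** -/
theorem dist (h : S_SQ) : S_DIST := by
  intro d p r V L κ hd hp hV hκ w G hH hE hop
  have hsqi : ∀ l, Integrable (fun x => w l x ^ 2) := fun l => (hH l).mu.integrable_sq
  refine ⟨integrable_finsetSum _ (fun l _ => hsqi l), ?_⟩
  intro η hη hη0
  obtain ⟨C, hC⟩ := tf_bdd hη
  have hp1 : p + 1 ≠ 0 := by linarith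
  -- pointwise identity
  have hpt : ∀ᵐ x : E d, (V x).toReal * ∑ l, w l x ^ 2 =
      κ ^ (1 / (p + 1)) * (∑ l, w l x ^ 2) ^ (p / (p + 1)) := by
    have hz : ∀ᵐ x : E d, ∀ l, V x = ⊤ → w l x = 0 := by
      rw [ae_all_iff]
      intro l
      have hm : AEMeasurable (fun x => V x * ‖w l x‖ₑ ^ 2) volume :=
        hV.aemeasurable.mul ((hH l).mu.1.enorm.pow_const 2)
      filter_upwards [ae_lt_top' hm (hH l).fin.ne] with x hx hVx
      by_contra hne
      rw [hVx, ENNReal.top_mul] at hx
      · exact (lt_irrefl _ hx)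
      · exact pow_ne_zero 2 (by simpa using hne)
    filter_upwards [hop, hz] with x hx hx'
    by_cases hVx : V x = ⊤
    · have h0 : ∑ l, w l x ^ 2 = 0 := Finset.sum_eq_zero (fun l _ => by rw [hx' l hVx]; ring)
      rw [h0, Real.zero_rpow (by positivity)]
      ring
    · exact opt_real hp hκ (Finset.sum_nonneg (fun l _ => sq_nonneg _)) hVx (hx hVx)
  have iV : ∀ l, Integrable (fun x => (V x).toReal * (w l x ^ 2 * η x)) :=
    fun l => int_V hV (hH l) hη
  have iw : ∀ l, Integrable (fun x => w l x ^ 2 * η x) := by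
    intro l
    have h3 := (hsqi l).bdd_mul hη.1.continuous.aestronglyMeasurable (Eventually.of_forall hC)
    refine h3.congr (Eventually.of_forall (fun x => ?_))
    simp only
    ring
  have il : ∀ l, Integrable (fun x => w l x ^ 2 * lap η x) := by
    intro l
    have h1 : ∀ i : Fin d, Integrable (fun x => w l x ^ 2 *
        fderiv ℝ (fun y => fderiv ℝ η y (EuclideanSpace.single i 1)) x
          (EuclideanSpace.single i 1)) := by
      intro i
      have ht := tf_fderiv (tf_fderiv hη (EuclideanSpace.single i 1)) (EuclideanSpace.single i 1)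
      obtain ⟨C1, hC1⟩ := tf_bdd ht
      have h3 := (hsqi l).bdd_mul ht.1.continuous.aestronglyMeasurable (Eventually.of_forall hC1)
      refine h3.congr (Eventually.of_forall (fun x => ?_))
      simp only
      ring
    have h2 := integrable_finsetSum Finset.univ (fun i _ => h1 i)
    refine h2.congr (Eventually.of_forall (fun x => ?_))
    simp only [lap]
    rw [Finset.mul_sum]
  have e1 : ∫ x, (2 * κ ^ (1 / (p + 1)) * (∑ l, w l x ^ 2) ^ (p / (p + 1)) -
      2 * L * ∑ l, w l x ^ 2) * η x =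
      ∑ l, (2 * (∫ x, (V x).toReal * (w l x ^ 2 * η x)) - 2 * L * (∫ x, w l x ^ 2 * η x)) := by
    have h1 : ∀ l, 2 * (∫ x, (V x).toReal * (w l x ^ 2 * η x)) -
        2 * L * (∫ x, w l x ^ 2 * η x) =
        ∫ x, (2 * ((V x).toReal * (w l x ^ 2 * η x)) - 2 * L * (w l x ^ 2 * η x)) := by
      intro l
      rw [← integral_const_mul, ← integral_const_mul,
        ← integral_sub ((iV l).const_mul _) ((iw l).const_mul _)]
    simp_rw [h1]
    have isub : ∀ l, Integrable (fun x => 2 * ((V x).toReal * (w l x ^ 2 * η x)) -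
        2 * L * (w l x ^ 2 * η x)) := fun l => ((iV l).const_mul _).sub ((iw l).const_mul _)
    rw [← integral_finsetSum _ (fun l _ => isub l)]
    refine integral_congr_ae ?_
    filter_upwards [hpt] with x hx
    rw [mul_assoc 2, ← hx, Finset.sum_sub_distrib, ← Finset.mul_sum, ← Finset.mul_sum,
      ← Finset.mul_sum, ← Finset.sum_mul]
    ring
  have e2 : ∫ x, (∑ l, w l x ^ 2) * lap η x = ∑ l, ∫ x, w l x ^ 2 * lap η x := by
    simp_rw [Finset.sum_mul]
    exact integral_finsetSum _ (fun l _ => il l)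
  rw [e1, e2]
  exact Finset.sum_le_sum (fun l _ => one h hd (hH l) (hE l) hη hη0)

end Pool.Agent.Y308.OP
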